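import Pool.Agent.helper64.QF.Spec

set_option autoImplicit false

namespace Pool.Agent.helper64.QF

open Metric MeasureTheory Set Filter Topology
open Pool.Agent.helper37.PR

/-- uniform smallness near the diagonal -/
theorem LWB_unif (Φ : ℝ × ℝ → ℝ) (hΦ : Continuous Φ) (h0 : ∀ s, Φ (s, s) = 0) (T η : ℝ)
    (hη : 0 < η) :
    ∃ δ : ℝ, 0 < δ ∧ ∀ s ∈ Icc (0 : ℝ) T, ∀ t ∈ Icc (0 : ℝ) T, |s - t| < δ → Φ (s, t) < η := by
  have hK : IsCompact (Icc (0 : ℝ) T ×ˢ Icc (0 : ℝ) T) := isCompact_Icc.prod isCompact_Icc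
  have hu := hK.uniformContinuousOn_of_continuous hΦ.continuousOn
  rw [Metric.uniformContinuousOn_iff] at hu
  obtain ⟨δ, hδ, h⟩ := hu η hη
  refine ⟨δ, hδ, fun s hs t ht hst => ?_⟩
  have h1 : dist ((s, t) : ℝ × ℝ) (s, s) < δ := by
    rw [Prod.dist_eq]
    simp only [dist_self]
    refine max_lt hδ ?_
    rw [Real.dist_eq, abs_sub_comm]
    exact hst
  have h2 := h (s, t) ⟨hs, ht⟩ (s, s) ⟨hs, hs⟩ h1
  rw [h0, Real.dist_eq, sub_zero] at h2
  exact (abs_lt.1 h2).2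

theorem LWB_min (τ : ℕ → ℝ) (hτ : ∀ j, 0 < τ j) (M : ℕ) :
    ∃ τ0 : ℝ, 0 < τ0 ∧ ∀ j < M, τ0 ≤ τ j := by
  induction M with
  | zero => exact ⟨1, one_pos, fun j hj => absurd hj (by omega)⟩
  | succ M ih =>
    obtain ⟨τ0, h0, h1⟩ := ih
    refine ⟨min τ0 (τ M), lt_min h0 (hτ M), fun j hj => ?_⟩
    rcases Nat.lt_succ_iff_lt_or_eq.1 hj with h | h
    · exact (min_le_left _ _).trans (h1 j h)
    · rw [h]; exact min_le_right _ _

/-- the difference of two values of the form is controlled -/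
theorem LWB_diff {n : ℕ} (A : E n →L[ℂ] E n) (h : E n → E n)
    (hb : ∀ x : E n, ‖P2 h x‖ ≤ 4 * ‖A‖ * ‖x‖ ^ 2)
    (hl : ∀ x y : E n, ‖P2 h x - P2 h y‖ ≤ 4 * ‖A‖ * ((‖x‖ + ‖y‖) * ‖x - y‖))
    (u u' v v' : E n) :
    -(inner ℂ v (P2 h u) : ℂ).re -
      4 * ‖A‖ * (‖u‖ ^ 2 * ‖v - v'‖ + ‖v'‖ * (‖u‖ + ‖u'‖) * ‖u - u'‖) ≤
      -(inner ℂ v' (P2 h u') : ℂ).re := by
  have h1 : (inner ℂ v (P2 h u) : ℂ) - inner ℂ v' (P2 h u') =
      inner ℂ (v - v') (P2 h u) + inner ℂ v' (P2 h u - P2 h u') := by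
    rw [inner_sub_left, inner_sub_right]; ring
  have h2 : ‖(inner ℂ v' (P2 h u') : ℂ) - inner ℂ v (P2 h u)‖ ≤
      4 * ‖A‖ * (‖u‖ ^ 2 * ‖v - v'‖ + ‖v'‖ * (‖u‖ + ‖u'‖) * ‖u - u'‖) := by
    rw [norm_sub_rev, h1]
    calc ‖(inner ℂ (v - v') (P2 h u) : ℂ) + inner ℂ v' (P2 h u - P2 h u')‖
        ≤ ‖(inner ℂ (v - v') (P2 h u) : ℂ)‖ + ‖(inner ℂ v' (P2 h u - P2 h u') : ℂ)‖ :=
          norm_add_le _ _
      _ ≤ ‖v - v'‖ * ‖P2 h u‖ + ‖v'‖ * ‖P2 h u - P2 h u'‖ :=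
          add_le_add (norm_inner_le_norm _ _) (norm_inner_le_norm _ _)
      _ ≤ ‖v - v'‖ * (4 * ‖A‖ * ‖u‖ ^ 2) +
            ‖v'‖ * (4 * ‖A‖ * ((‖u‖ + ‖u'‖) * ‖u - u'‖)) :=
          add_le_add (mul_le_mul_of_nonneg_left (hb u) (norm_nonneg _))
            (mul_le_mul_of_nonneg_left (hl u u') (norm_nonneg _))
      _ = 4 * ‖A‖ * (‖u‖ ^ 2 * ‖v - v'‖ + ‖v'‖ * (‖u‖ + ‖u'‖) * ‖u - u'‖) := by ring
  have h3 := (Complex.abs_re_le_norm ((inner ℂ v' (P2 h u') : ℂ) - inner ℂ v (P2 h u))).trans h2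
  rw [Complex.sub_re] at h3
  have h4 := (abs_le.1 h3).2
  linarith

/-- near extremal polynomial maps at a given time, uniformly near it -/
theorem LWB_step (hSEP : SEP_stmt) (hPSC : PSC_stmt) (hPP2 : PP2_stmt) (hPLI : PLI_stmt)
    {n : ℕ} (A : E n →L[ℂ] E n) (m : ℝ) (hm : 0 < m) (hlow : ∀ x : E n, m * ‖x‖ ^ 2 ≤ qA A x)
    (U V : E n) (hU : ∀ t, fw A U t ≠ 0) (hV : ∀ t, dual A V t ≠ 0) (η : ℝ) (hη : 0 < η)
    (s : ℝ) :
    ∃ p : Fin n → MvPolynomial (Fin n) ℂ, IsCara A (pm p) ∧ ∀ t : ℝ,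
      |sigt A U V s - sigt A U V t| +
        4 * ‖A‖ * (‖fw A U s‖ ^ 2 * ‖dual A V s - dual A V t‖ +
          ‖dual A V t‖ * (‖fw A U s‖ + ‖fw A U t‖) * ‖fw A U s - fw A U t‖) < η →
      sigt A U V t - 3 * η ≤ -(inner ℂ (dual A V t) (P2 (pm p) (fw A U t)) : ℂ).re := by
  obtain ⟨p, hp⟩ := hSEP n A m hm hlow (fw A U s) (dual A V s) (hU s) (hV s)
    (sigt A U V s - η) (by unfold sigt; linarith)
  obtain ⟨h1, h2, h3, h4⟩ := hp
  have hC : IsCara A (pm p) := hPSC n A p h1 h2 h3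
  obtain ⟨-, -, -, h5⟩ := hPP2 n p h1
  obtain ⟨h6, h7⟩ := hPLI n A (pm p) hC
  refine ⟨p, hC, fun t ht => ?_⟩
  have h8 := LWB_diff A (pm p) h6 h7 (fw A U s) (fw A U t) (dual A V s) (dual A V t)
  rw [← h5] at h4
  have h9 : 0 ≤ 4 * ‖A‖ * (‖fw A U s‖ ^ 2 * ‖dual A V s - dual A V t‖ +
          ‖dual A V t‖ * (‖fw A U s‖ + ‖fw A U t‖) * ‖fw A U s - fw A U t‖) := by positivity
  have h10 := neg_abs_le (sigt A U V s - sigt A U V t)
  have h11 := abs_nonneg (sigt A U V s - sigt A U V t)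
  have h12 : sigt A U V t - sigt A U V s ≤ |sigt A U V s - sigt A U V t| := by
    linarith
  linarith

theorem LWB_cont {n : ℕ} (A : E n →L[ℂ] E n) (U V : E n) (hf : Continuous (fw A U))
    (hd : Continuous (dual A V)) (h : E n → E n) :
    Continuous (fun t : ℝ => (inner ℂ (dual A V t) (P2 h (fw A U t)) : ℂ)) :=
  hd.inner ((P2_continuous h).comp hf)

/-- the main step, for nonzero vectors -/
theorem LWB_main (hSEP : SEP_stmt) (hPSC : PSC_stmt) (hPP2 : PP2_stmt) (hPLI : PLI_stmt)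
    (hLAN : LAN_stmt) (hPWC : PWC_stmt) (hINT : INT_stmt) (hLIN : LIN_stmt)
    (n : ℕ) (A : E n →L[ℂ] E n) (m κ C : ℝ) (hA : Cls A m κ C) (U V : E n) (hU : U ≠ 0)
    (hV : V ≠ 0) (ε : ℝ) (hε : 0 < ε) :
    ∃ f : E n → E n, ParamRep A f ∧ JA A U V - ε ≤ ‖(inner ℂ V (P2 f U) : ℂ)‖ := by
  obtain ⟨-, -, -, -, -, -, -, hfc, hdc, hf0, hd0, -⟩ := hLIN n A m κ C hA U V
  obtain ⟨hsc, hsi, -⟩ := hINT n A m κ C hA U V
  -- the choice of `T`
  have hlim : Tendsto (fun T : ℝ => ∫ t in (0 : ℝ)..T, sigt A U V t) atTop (𝓝 (JA A U V)) :=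
    intervalIntegral_tendsto_integral_Ioi 0 hsi tendsto_id
  have hev : ∀ᶠ T : ℝ in atTop, JA A U V - ε / 2 < ∫ t in (0 : ℝ)..T, sigt A U V t :=
    hlim.eventually (lt_mem_nhds (by linarith))
  obtain ⟨T, hT1, hT0⟩ := (hev.and (eventually_gt_atTop (0 : ℝ))).exists
  set η : ℝ := ε / (6 * T) with hη_def
  have hη : 0 < η := by positivity
  have hηT : 3 * η * T = ε / 2 := by
    rw [hη_def]; field_simp; norm_num
  -- the choice of `δ`
  obtain ⟨δ, hδ, hunif⟩ := LWB_unif (fun q : ℝ × ℝ => |sigt A U V q.1 - sigt A U V q.2| +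
        4 * ‖A‖ * (‖fw A U q.1‖ ^ 2 * ‖dual A V q.1 - dual A V q.2‖ +
          ‖dual A V q.2‖ * (‖fw A U q.1‖ + ‖fw A U q.2‖) * ‖fw A U q.1 - fw A U q.2‖))
    (by
      have a1 : Continuous (fun q : ℝ × ℝ => sigt A U V q.1) := hsc.comp continuous_fst
      have a2 : Continuous (fun q : ℝ × ℝ => sigt A U V q.2) := hsc.comp continuous_snd
      have b1 : Continuous (fun q : ℝ × ℝ => fw A U q.1) := hfc.comp continuous_fst
      have b2 : Continuous (fun q : ℝ × ℝ => fw A U q.2) := hfc.comp continuous_snd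
      have c1 : Continuous (fun q : ℝ × ℝ => dual A V q.1) := hdc.comp continuous_fst
      have c2 : Continuous (fun q : ℝ × ℝ => dual A V q.2) := hdc.comp continuous_snd
      exact (a1.sub a2).abs.add (continuous_const.mul (((b1.norm.pow 2).mul (c1.sub c2).norm).add
        ((c2.norm.mul (b1.norm.add b2.norm)).mul (b1.sub b2).norm))))
    (fun s => by simp) T η hη
  -- the choice of `M`
  obtain ⟨M, hM⟩ := exists_nat_gt (T / δ)
  have hM0 : (0 : ℝ) < M := lt_of_le_of_lt (by positivity) hM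
  have hMδ : T / M < δ := by
    rw [div_lt_iff₀ hM0]
    rw [div_lt_iff₀ hδ] at hM
    linarith
  have hMpos : 0 < M := by exact_mod_cast hM0
  -- the polynomial maps
  choose p hpC hp using fun j : ℕ => LWB_step hSEP hPSC hPP2 hPLI A m hA.m0 hA.low U V (hf0 hU)
    (hd0 hV) η hη ((j : ℝ) * (T / M))
  choose τj hτj hX using fun j : ℕ => hLAN n A (p j) (hpC j)
  obtain ⟨τ0, hτ0, hτmin⟩ := LWB_min τj hτj M
  obtain ⟨R, hR⟩ := exists_nat_gt (T / M / τ0)
  have hR0 : (0 : ℝ) < R := lt_of_le_of_lt (by positivity) hR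
  have hRpos : 0 < R := by exact_mod_cast hR0
  set τ : ℝ := T / M / R with hτ_def
  have hτ : 0 < τ := by positivity
  have hττ : τ ≤ τ0 := by
    rw [hτ_def, div_le_iff₀ hR0]
    rw [div_lt_iff₀ hτ0] at hR
    linarith
  have hNτ : ((M * R : ℕ) : ℝ) * τ = T := by
    rw [hτ_def]; push_cast; field_simp
  have hRτ : (R : ℝ) * τ = T / M := by
    rw [hτ_def]; field_simp
  have hX' : ∀ i : ℕ, ∃ X : E n → ℝ → E n, i < M * R → LFlow (pm (p (i / R))) τ X := by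
    intro i
    by_cases hi : i < M * R
    · have h1 : i / R < M := Nat.div_lt_of_lt_mul (by rw [mul_comm]; exact hi)
      obtain ⟨X, hX1⟩ := hX (i / R) τ hτ (hττ.trans (hτmin _ h1))
      exact ⟨X, fun _ => hX1⟩
    · exact ⟨fun _ _ => 0, fun h => absurd h hi⟩
  choose X hXl using hX'
  obtain ⟨f, hfP, hfform⟩ := hPWC n A m κ C hA (M * R) τ hτ (fun i => pm (p (i / R))) X
    (fun i hi => ⟨hpC _, hXl i hi⟩)
  refine ⟨f, hfP, ?_⟩
  -- the estimate on each interval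
  have hint : ∀ i < M * R, (∫ t in ((i : ℝ) * τ)..(((i : ℝ) + 1) * τ), (sigt A U V t - 3 * η)) ≤
      -(∫ t in ((i : ℝ) * τ)..(((i : ℝ) + 1) * τ),
        (inner ℂ (dual A V t) (P2 (pm (p (i / R))) (fw A U t)) : ℂ)).re := by
    intro i hi
    have hc := LWB_cont A U V hfc hdc (pm (p (i / R)))
    have e1 : (∫ t in ((i : ℝ) * τ)..(((i : ℝ) + 1) * τ),
        (inner ℂ (dual A V t) (P2 (pm (p (i / R))) (fw A U t)) : ℂ)).re =
        ∫ t in ((i : ℝ) * τ)..(((i : ℝ) + 1) * τ),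
          (inner ℂ (dual A V t) (P2 (pm (p (i / R))) (fw A U t)) : ℂ).re := by
      have := Complex.reCLM.intervalIntegral_comp_comm
        (hc.intervalIntegrable (μ := volume) ((i : ℝ) * τ) (((i : ℝ) + 1) * τ))
      simpa using this.symm
    rw [e1, ← intervalIntegral.integral_neg]
    have hle : (i : ℝ) * τ ≤ ((i : ℝ) + 1) * τ := by nlinarith
    refine intervalIntegral.integral_mono_on hle
      ((hsc.sub continuous_const).intervalIntegrable _ _)
      ((Complex.continuous_re.comp hc).neg.intervalIntegrable _ _) (fun t ht => ?_)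
    -- the position of `t`
    have hdiv : i / R * R ≤ i := Nat.div_mul_le_self i R
    have hdiv2 : i < i / R * R + R := by
      have := Nat.lt_div_mul_add hRpos (a := i)
      exact this
    have hi1 : ((i / R : ℕ) : ℝ) * R ≤ i := by exact_mod_cast hdiv
    have hi2 : (i : ℝ) + 1 ≤ ((i / R : ℕ) : ℝ) * R + R := by exact_mod_cast hdiv2
    have hs1 : ((i / R : ℕ) : ℝ) * (T / M) ≤ t := by
      refine le_trans ?_ ht.1
      rw [← hRτ, ← mul_assoc]
      exact mul_le_mul_of_nonneg_right hi1 hτ.le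
    have hs2 : t ≤ ((i / R : ℕ) : ℝ) * (T / M) + T / M := by
      refine ht.2.trans ?_
      have : ((i : ℝ) + 1) * τ ≤ (((i / R : ℕ) : ℝ) * R + R) * τ :=
        mul_le_mul_of_nonneg_right hi2 hτ.le
      calc ((i : ℝ) + 1) * τ ≤ (((i / R : ℕ) : ℝ) * R + R) * τ := this
        _ = ((i / R : ℕ) : ℝ) * (R * τ) + R * τ := by ring
        _ = ((i / R : ℕ) : ℝ) * (T / M) + T / M := by rw [hRτ]
    have hs0 : 0 ≤ ((i / R : ℕ) : ℝ) * (T / M) := by positivity
    have htT : t ≤ T := by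
      refine ht.2.trans ?_
      rw [← hNτ]
      refine mul_le_mul_of_nonneg_right ?_ hτ.le
      exact_mod_cast hi
    have habs : |((i / R : ℕ) : ℝ) * (T / M) - t| < δ := by
      rw [abs_lt]; constructor <;> linarith
    exact hp (i / R) t (hunif _ ⟨hs0, hs1.trans htT⟩ t ⟨hs0.trans hs1, htT⟩ habs)
  -- summation
  have hsum : (∑ i ∈ Finset.range (M * R),
      ∫ t in ((i : ℝ) * τ)..(((i : ℝ) + 1) * τ), (sigt A U V t - 3 * η)) =
      ∫ t in (0 : ℝ)..T, (sigt A U V t - 3 * η) := by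
    have h1 := intervalIntegral.sum_integral_adjacent_intervals (μ := volume)
      (f := fun t => sigt A U V t - 3 * η) (a := fun k : ℕ => (k : ℝ) * τ) (n := M * R)
      (fun k _ => (hsc.sub continuous_const).intervalIntegrable _ _)
    simp only [Nat.cast_zero, zero_mul, hNτ] at h1
    rw [← h1]
    refine Finset.sum_congr rfl fun i _ => ?_
    push_cast
    rfl
  have hT2 : (∫ t in (0 : ℝ)..T, (sigt A U V t - 3 * η)) =
      (∫ t in (0 : ℝ)..T, sigt A U V t) - 3 * η * T := by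
    rw [intervalIntegral.integral_sub (hsc.intervalIntegrable _ _)
      (continuous_const.intervalIntegrable _ _), intervalIntegral.integral_const]
    simp only [sub_zero, smul_eq_mul]
    ring
  have hre : (inner ℂ V (P2 f U) : ℂ).re = ∑ i ∈ Finset.range (M * R),
      -(∫ t in ((i : ℝ) * τ)..(((i : ℝ) + 1) * τ),
        (inner ℂ (dual A V t) (P2 (pm (p (i / R))) (fw A U t)) : ℂ)).re := by
    rw [hfform U V, Complex.neg_re, Complex.re_sum, Finset.sum_neg_distrib]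
  have hfin : JA A U V - ε ≤ (inner ℂ V (P2 f U) : ℂ).re := by
    rw [hre]
    calc JA A U V - ε ≤ (∫ t in (0 : ℝ)..T, sigt A U V t) - 3 * η * T := by
          rw [hηT]; linarith
      _ = ∑ i ∈ Finset.range (M * R),
          ∫ t in ((i : ℝ) * τ)..(((i : ℝ) + 1) * τ), (sigt A U V t - 3 * η) := by
          rw [hsum, hT2]
      _ ≤ _ := Finset.sum_le_sum fun i hi => hint i (Finset.mem_range.1 hi)
  exact hfin.trans ((le_abs_self _).trans (Complex.abs_re_le_norm _))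

theorem LWB (hSEP : SEP_stmt) (hPSC : PSC_stmt) (hPP2 : PP2_stmt) (hPLI : PLI_stmt)
    (hLAN : LAN_stmt) (hPWC : PWC_stmt) (hINT : INT_stmt) (hLIN : LIN_stmt) (hSG0 : SG0_stmt) :
    LWB_stmt := by
  intro n A m κ C hA U V ε hε
  by_cases hUV : U ≠ 0 ∧ V ≠ 0
  · exact LWB_main hSEP hPSC hPP2 hPLI hLAN hPWC hINT hLIN n A m κ C hA U V hUV.1 hUV.2 ε hε
  · obtain ⟨f, hf, -⟩ := hPWC n A m κ C hA 0 1 one_pos (fun _ z => z) (fun _ z _ => z)
      (fun i hi => absurd hi (by omega))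
    have hq : ∀ x : E n, 0 ≤ qA A x := fun x =>
      (mul_nonneg hA.m0.le (sq_nonneg _)).trans (hA.low x)
    obtain ⟨-, -, -, -, h0V, hU0, -⟩ := hSG0 n A hq
    have hJ : JA A U V = 0 := by
      have h1 : ∀ t ∈ Ioi (0 : ℝ), sigt A U V t = 0 := by
        intro t ht
        have ht' : (0 : ℝ) < t := ht
        unfold sigt
        by_cases hU : U = 0
        · have : fw A U t = 0 := by rw [hU]; unfold fw; exact map_zero _
          rw [this]; exact h0V _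
        · have hV : V = 0 := by
            by_contra hV
            exact hUV ⟨hU, hV⟩
          have : dual A V t = 0 := by rw [hV]; unfold dual; exact map_zero _
          rw [this]; exact hU0 _
      unfold JA
      rw [setIntegral_congr_fun measurableSet_Ioi h1]
      simp
    refine ⟨f, hf, ?_⟩
    rw [hJ]
    have := norm_nonneg (inner ℂ V (P2 f U) : ℂ)
    linarith

end Pool.Agent.helper64.QF
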